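import Pool.Agent.Lib.MP_77ea03_lc.Assembly
import Pool.Agent.Lib.MP_77ea03_lc.ThinB

set_option autoImplicit false

namespace Pool.Agent.Results.MP_77ea03_lc.LineNoiseless

open Set FirstOrder Pool.Agent.Lib.MP_77ea03_lc

universe u v w

/-- No subset of the line that is definable with parameters is dense and co-dense in a nonempty
open interval. -/
def NoNoise (L : FirstOrder.Language.{u, v}) [L.Structure ℝ] : Prop :=
  ∀ X : Set ℝ, Set.Definable₁ (univ : Set ℝ) L X → ∀ a b : ℝ, a < b →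
    ¬ (Ioo a b ⊆ closure (X ∩ Ioo a b) ∧ Ioo a b ⊆ closure (Ioo a b \ X))

/-- The formula `φ(x; y)` has the independence property in the structure `M`: some sequence of
tuples is shattered by the instances of `φ`. -/
def HasIP {L : FirstOrder.Language.{u, v}} {m k : ℕ} (φ : L.Formula (Fin m ⊕ Fin k)) (M : Type)
    [L.Structure M] : Prop :=
  ∃ a : ℕ → Fin m → M, ∀ S : Set ℕ, ∃ b : Fin k → M,
    ∀ i : ℕ, (φ.Realize (Sum.elim (a i) b) ↔ i ∈ S)

/-- No formula has the independence property in a model of the complete theory of the structure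
on the line. -/
def TheoryNIP (L : FirstOrder.Language.{u, v}) [L.Structure ℝ] : Prop :=
  ∀ (m k : ℕ) (φ : L.Formula (Fin m ⊕ Fin k)) (M : Type) [L.Structure M],
    M ⊨ L.completeTheory ℝ → ¬ HasIP φ M

/-- The field `K` is interpretable: `K` is the quotient of a definable set `X` of tuples by a
definable equivalence relation `E`, and its addition and multiplication come from definable
relations on `X`. The map `g` is the quotient map. -/
def Interpretable (L : FirstOrder.Language.{u, v}) [L.Structure ℝ] (K : Type w) [Field K] : Prop :=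
  ∃ (n : ℕ) (X : Set (Fin n → ℝ)) (E : Set (Fin n ⊕ Fin n → ℝ))
    (A Mu : Set (Fin n ⊕ Fin n ⊕ Fin n → ℝ)) (g : X → K),
    Set.Definable (univ : Set ℝ) L X ∧ Set.Definable (univ : Set ℝ) L E ∧
    Set.Definable (univ : Set ℝ) L A ∧ Set.Definable (univ : Set ℝ) L Mu ∧
    Function.Surjective g ∧
    (∀ a b : X, (Sum.elim a.1 b.1 ∈ E ↔ g a = g b)) ∧
    (∀ a b c : X, (Sum.elim a.1 (Sum.elim b.1 c.1) ∈ A ↔ g a + g b = g c)) ∧
    (∀ a b c : X, (Sum.elim a.1 (Sum.elim b.1 c.1) ∈ Mu ↔ g a * g b = g c))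

section aux

variable {L : FirstOrder.Language.{u, v}} [L.Structure ℝ]

/-- The family of sets definable with parameters. -/
def str (hlt : Set.Definable (univ : Set ℝ) L {v : Fin 2 → ℝ | v 0 < v 1})
    (hadd : Set.Definable (univ : Set ℝ) L {v : Fin 3 → ℝ | v 0 + v 1 = v 2}) : Str where
  Def := fun {_} s => Set.Definable (univ : Set ℝ) L s
  compl := fun h => h.compl
  inter := fun h1 h2 => h1.inter h2
  preim := fun f _ h => h.preimage_comp f
  proj := fun h => h.exists_of_finite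
  lt := hlt
  add := hadd
  const := fun c => by
    have := Set.Definable.singleton_of_mem L (a := c) (A := univ) (mem_univ c)
    unfold Set.Definable₁ at this
    simpa only [mem_singleton_iff] using this

/-- Compactness (by an ultrapower): arbitrarily large finite shattered sets give an infinite
shattered sequence in an elementarily equivalent structure. -/
theorem bounded (h : TheoryNIP L) (m k : ℕ) (φ : L.Formula (Fin m ⊕ Fin k)) :
    ∃ N : ℕ, ∀ a : Fin N → Fin m → ℝ, ¬ ∀ S : Set (Fin N), ∃ b : Fin k → ℝ,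
      ∀ i : Fin N, (φ.Realize (Sum.elim (a i) b) ↔ i ∈ S) := by
  by_contra hcon
  push Not at hcon
  choose a ha using hcon
  choose b hb using ha
  let u : Ultrafilter ℕ := Filter.hyperfilter ℕ
  let P : Type := (u : Filter ℕ).Product (fun _ : ℕ => ℝ)
  have hP : P ⊨ L.completeTheory ℝ := by
    constructor
    intro ψ hψ
    have h1 : ℝ ⊨ ψ := (FirstOrder.Language.mem_completeTheory).1 hψ
    exact (FirstOrder.Language.Ultraproduct.sentence_realize (M := fun _ : ℕ => ℝ) (u := u) ψ).2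
      (Filter.Eventually.of_forall fun _ => h1)
  refine h m k φ P hP ?_
  let X : ℕ → Fin m → ℕ → ℝ := fun i j N => if hi : i < N then a N ⟨i, hi⟩ j else 0
  let Y : Set ℕ → Fin k → ℕ → ℝ := fun S j N => b N {i | (i : ℕ) ∈ S} j
  refine ⟨fun i j => ((X i j : ℕ → ℝ) : (u : Filter ℕ).Product (fun _ : ℕ => ℝ)), fun S =>
    ⟨fun j => ((Y S j : ℕ → ℝ) : (u : Filter ℕ).Product (fun _ : ℕ => ℝ)), fun i => ?_⟩⟩
  have key := FirstOrder.Language.Ultraproduct.realize_formula_cast (M := fun _ : ℕ => ℝ) (u := u) φ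
    (Sum.elim (X i) (Y S))
  have e1 : (fun x => ((Sum.elim (X i) (Y S) x : ℕ → ℝ) :
      (u : Filter ℕ).Product (fun _ : ℕ => ℝ))) =
      Sum.elim (fun j => ((X i j : ℕ → ℝ) : (u : Filter ℕ).Product (fun _ : ℕ => ℝ)))
        (fun j => ((Y S j : ℕ → ℝ) : (u : Filter ℕ).Product (fun _ : ℕ => ℝ))) := by
    funext x
    rcases x with x | x <;> rfl
  rw [e1] at key
  refine key.trans ?_
  have hlarge : ∀ᶠ N in (u : Filter ℕ), i < N :=
    Filter.mem_hyperfilter_of_finite_compl (by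
      refine (Set.finite_Iic i).subset ?_
      intro N hN
      simpa using hN)
  have hev : ∀ᶠ N in (u : Filter ℕ),
      (φ.Realize (fun x => Sum.elim (X i) (Y S) x N) ↔ i ∈ S) := by
    filter_upwards [hlarge] with N hN
    have h2 := hb N {i | (i : ℕ) ∈ S} ⟨i, hN⟩
    have e2 : (fun x => Sum.elim (X i) (Y S) x N) =
        Sum.elim (a N ⟨i, hN⟩) (b N {i | (i : ℕ) ∈ S}) := by
      funext x
      rcases x with x | x
      · simp [X, hN]
      · simp [Y]
    rw [e2]
    exact h2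
  constructor
  · intro h3
    obtain ⟨N, h4, h5⟩ := (h3.and hev).exists
    exact h5.1 h4
  · intro h3
    filter_upwards [hev] with N hN
    exact hN.2 h3

theorem nip_str (hlt : Set.Definable (univ : Set ℝ) L {v : Fin 2 → ℝ | v 0 < v 1})
    (hadd : Set.Definable (univ : Set ℝ) L {v : Fin 3 → ℝ | v 0 + v 1 = v 2})
    (h : TheoryNIP L) : NIP (str hlt hadd) := by
  intro ι κ _ _ R hR
  have hR' : Set.Definable (univ : Set ℝ) L R := hR
  rw [Set.definable_iff_finitely_definable] at hR'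
  obtain ⟨A0, _, hR0⟩ := hR'
  rw [Set.definable_iff_exists_formula_sum] at hR0
  obtain ⟨φ, hφ⟩ := hR0
  obtain ⟨m, ⟨em⟩⟩ := Finite.exists_equiv_fin ι
  obtain ⟨k, ⟨ek⟩⟩ := Finite.exists_equiv_fin (κ ⊕ ((A0 : Set ℝ) : Type))
  let g : ((A0 : Set ℝ) : Type) ⊕ (ι ⊕ κ) → Fin m ⊕ Fin k :=
    Sum.elim (fun x => Sum.inr (ek (Sum.inr x)))
      (Sum.elim (fun i => Sum.inl (em i)) (fun j => Sum.inr (ek (Sum.inl j))))
  obtain ⟨N, hN⟩ := bounded h m k (φ.relabel g)
  refine ⟨N, fun a ha => hN (fun i => a i ∘ em.symm) ?_⟩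
  intro S
  obtain ⟨b, hb⟩ := ha S
  refine ⟨(Sum.elim b (fun x : ((A0 : Set ℝ) : Type) => (x : ℝ))) ∘ ek.symm, fun i => ?_⟩
  rw [← hb i, hφ, FirstOrder.Language.Formula.realize_relabel, mem_ofPred_eq]
  have e : (Sum.elim (a i ∘ em.symm)
      ((Sum.elim b (fun x : ((A0 : Set ℝ) : Type) => (x : ℝ))) ∘ ek.symm)) ∘ g
      = Sum.elim (fun x : ((A0 : Set ℝ) : Type) => (x : ℝ)) (Sum.elim (a i) b) := by
    funext x
    rcases x with x | x | x <;> simp [g]
  rw [e]

theorem noiseless_str (hlt : Set.Definable (univ : Set ℝ) L {v : Fin 2 → ℝ | v 0 < v 1})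
    (hadd : Set.Definable (univ : Set ℝ) L {v : Fin 3 → ℝ | v 0 + v 1 = v 2})
    (h : NoNoise L) : Noiseless (str hlt hadd) := by
  intro P hP a b hab
  have hD : DFun (str hlt hadd) (fun v : Fin 1 → ℝ => P (v 0)) := by
    fun_prop
  have hY : Set.Definable₁ (univ : Set ℝ) L {x : ℝ | P x} := by
    have h1 := hD.toD
    unfold D at h1
    have h2 : (DSort.emb '' {v : Fin 1 → ℝ | P (v 0)})
        = {v : Fin 1 → ℝ | P (v 0)} := image_id _
    rw [h2] at h1
    exact h1
  have h3 := h _ hY a b hab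
  rw [not_and_or] at h3
  have aux : ∀ Z : Set ℝ, ¬ Ioo a b ⊆ closure (Z ∩ Ioo a b) →
      ∃ c d, a ≤ c ∧ c < d ∧ d ≤ b ∧ ∀ x, c < x → x < d → x ∉ Z := by
    intro Z hZ
    rw [not_subset] at hZ
    obtain ⟨x, hx, hx2⟩ := hZ
    have ho : IsOpen ((closure (Z ∩ Ioo a b))ᶜ ∩ Ioo a b) :=
      isClosed_closure.isOpen_compl.inter isOpen_Ioo
    obtain ⟨r, hr, hball⟩ := Metric.isOpen_iff.1 ho x ⟨hx2, hx⟩
    rw [Real.ball_eq_Ioo] at hball
    refine ⟨x - r / 2, x + r / 2, ?_, by linarith, ?_, ?_⟩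
    · exact (hball ⟨by linarith, by linarith⟩ : x - r / 2 ∈ _).2.1.le
    · exact (hball ⟨by linarith, by linarith⟩ : x + r / 2 ∈ _).2.2.le
    · intro y h1 h2 hy
      have h4 := hball (⟨by linarith, by linarith⟩ : y ∈ Ioo (x - r) (x + r))
      exact h4.1 (subset_closure ⟨hy, h4.2⟩)
  rcases h3 with h3 | h3
  · obtain ⟨c, d, h1, h2, h4, h5⟩ := aux _ h3
    exact ⟨c, d, h1, h2, h4, Or.inr fun x hx hx' => h5 x hx hx'⟩
  · have e : Ioo a b \ {x : ℝ | P x} = {x : ℝ | ¬ P x} ∩ Ioo a b := by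
      ext x
      constructor
      · rintro ⟨h1, h2⟩
        exact ⟨h2, h1⟩
      · rintro ⟨h1, h2⟩
        exact ⟨h2, h1⟩
    rw [e] at h3
    obtain ⟨c, d, h1, h2, h4, h5⟩ := aux _ h3
    refine ⟨c, d, h1, h2, h4, Or.inl fun x hx hx' => ?_⟩
    by_contra h6
    exact h5 x hx hx' h6

end aux

/-- Every infinite field interpretable in a noiseless NIP expansion of the ordered group of the
real numbers is isomorphic to the field of real or of complex numbers. -/
theorem result (L : FirstOrder.Language.{u, v}) [L.Structure ℝ]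
    (hlt : Set.Definable (univ : Set ℝ) L {v : Fin 2 → ℝ | v 0 < v 1})
    (hadd : Set.Definable (univ : Set ℝ) L {v : Fin 3 → ℝ | v 0 + v 1 = v 2})
    (hNIP : TheoryNIP L) (hnoise : NoNoise L)
    (K : Type w) [Field K] [Infinite K] (hK : Interpretable L K) :
    Nonempty (K ≃+* ℝ) ∨ Nonempty (K ≃+* ℂ) := by
  classical
  obtain ⟨n, X, E, A, Mu, g, hX, hE, hA, hMu, hg, hgE, hgA, hgM⟩ := hK
  have : Small.{0} K := small_of_surjective hg
  let e : Shrink.{0} K ≃+* K := Shrink.ringEquiv K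
  have : Infinite (Shrink.{0} K) := Infinite.of_injective e.symm e.symm.injective
  let g' : (Fin n → ℝ) → Shrink.{0} K := fun x => if h : x ∈ X then e.symm (g ⟨x, h⟩) else 0
  have hg' : ∀ (x : Fin n → ℝ) (h : x ∈ X), g' x = e.symm (g ⟨x, h⟩) := fun x h => dif_pos h
  have main := mainThm (𝒮 := str hlt hadd) thinStmtB (nip_str hlt hadd hNIP)
    (noiseless_str hlt hadd hnoise) (K := Shrink.{0} K) (g := g') hX hE hA hMu ?_ ?_ ?_ ?_
  · rcases main with ⟨⟨f⟩⟩ | ⟨⟨f⟩⟩
    · exact Or.inl ⟨e.symm.trans f⟩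
    · exact Or.inr ⟨e.symm.trans f⟩
  · refine eq_univ_of_forall fun y => ?_
    obtain ⟨x, hx⟩ := hg (e y)
    exact ⟨x.1, x.2, by rw [hg' x.1 x.2]; simp [hx]⟩
  · intro a ha b hb
    rw [hg' a ha, hg' b hb, e.symm.injective.eq_iff]
    exact hgE ⟨a, ha⟩ ⟨b, hb⟩
  · intro a ha b hb c hc
    rw [hg' a ha, hg' b hb, hg' c hc, ← map_add, e.symm.injective.eq_iff]
    exact hgA ⟨a, ha⟩ ⟨b, hb⟩ ⟨c, hc⟩
  · intro a ha b hb c hc
    rw [hg' a ha, hg' b hb, hg' c hc, ← map_mul, e.symm.injective.eq_iff]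
    exact hgM ⟨a, ha⟩ ⟨b, hb⟩ ⟨c, hc⟩

end Pool.Agent.Results.MP_77ea03_lc.LineNoiseless
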